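import Pool.Agent.Lib_helper5.LatMain

/-!
MP_6f2e8a_an, Q1. For every `n ≥ 1`: every real `n × n` matrix with property (H) is badly
approximable if and only if `n = 1`. In particular the Diophantine condition of the problem is
not necessary for property (H) as soon as `n ≥ 2`.
-/

namespace Pool.Agent.Results.MP_6f2e8a_an.Answer

open Pool.Agent.Lib_helper5.Lat

theorem result (n : ℕ) (hn : 1 ≤ n) :
    (∀ Θ : Matrix (Fin n) (Fin n) ℝ, PropertyH Θ → BadlyApproxMat Θ) ↔ n = 1 :=
  answer n hn

end Pool.Agent.Results.MP_6f2e8a_an.Answer
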