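import Pool.Agent.Lib_helper5.LatMain

/-!
MP_6f2e8a_an. Exact criterion: property (H) holds for `Θ` if and only if the distance from
`Θ v` to `ℤ^n` is at least `c ‖v‖^{-δ}` for all nonzero integer vectors `v`.
-/

namespace Pool.Agent.Results.MP_6f2e8a_an.Criterion

open Pool.Agent.Lib_helper5.Lat

theorem result (n : ℕ) (hn : 1 ≤ n) (Θ : Matrix (Fin n) (Fin n) ℝ) :
    PropertyH Θ ↔ LatticeDiophantine Θ :=
  propertyH_iff hn Θ

end Pool.Agent.Results.MP_6f2e8a_an.Criterion
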